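import Pool.Agent.Y995.LG.Stm

/-!
# LG-GENB: almost all lines contain no double point (helper259, for project LG of helper995)
-/

set_option autoImplicit false

namespace Pool.Agent.Y259.LG

open H984P H984N MeasureTheory Filter Topology Pool.Agent.Y995.LG
open scoped ENNReal

/-- the condition on pairs of times -/
def PN (n : ℕ) : Set (unitInterval × unitInterval) :=
  {q | 1 / ((n : ℝ) + 1) ≤ (q.2 : ℝ) - q.1 ∧ (q.2 : ℝ) - q.1 ≤ 1 - 1 / ((n : ℝ) + 1)}

theorem PN_closed (n : ℕ) : IsClosed (PN n) := by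
  unfold PN
  apply IsClosed.inter
  · exact isClosed_le continuous_const
      ((continuous_subtype_val.comp continuous_snd).sub (continuous_subtype_val.comp continuous_fst))
  · exact isClosed_le
      ((continuous_subtype_val.comp continuous_snd).sub (continuous_subtype_val.comp continuous_fst))
      continuous_const

theorem PN_mem {u v : unitInterval} (h1 : u < v) (h2 : (v : ℝ) < 1) : ∃ n, (u, v) ∈ PN n := by
  have h3 : (0 : ℝ) < (v : ℝ) - u := sub_pos.2 h1
  have h4 : (v : ℝ) - u < 1 := by linarith [u.2.1]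
  obtain ⟨n, hn⟩ := exists_nat_one_div_lt (lt_min h3 (sub_pos.2 h4))
  rw [lt_min_iff] at hn
  exact ⟨n, hn.1.le, by linarith [hn.2]⟩

/-- the set of the lines through a double point -/
def KK (f : ℂ → ℝ) (n : ℕ) : Set (X × ℝ) :=
  {y | ∃ q ∈ PN n, y.1.1 q.1 = y.1.1 q.2 ∧ f (y.1.1 q.1) = y.2}

theorem KK_closed (f : ℂ → ℝ) (hf : Continuous f) (n : ℕ) : IsClosed (KK f n) := by
  have h1 : KK f n = Prod.fst '' {y : (X × ℝ) × (unitInterval × unitInterval) | y.2 ∈ PN n ∧
      y.1.1.1 y.2.1 = y.1.1.1 y.2.2 ∧ f (y.1.1.1 y.2.1) = y.1.2} := by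
    ext y
    constructor
    · rintro ⟨q, hq, h2, h3⟩
      exact ⟨(y, q), ⟨hq, h2, h3⟩, rfl⟩
    · rintro ⟨⟨y', q⟩, ⟨hq, h2, h3⟩, rfl⟩
      exact ⟨q, hq, h2, h3⟩
  rw [h1]
  apply isClosedMap_fst_of_compactSpace
  have e1 : Continuous fun y : (X × ℝ) × (unitInterval × unitInterval) => y.1.1.1 y.2.1 := by
    fun_prop
  have e2 : Continuous fun y : (X × ℝ) × (unitInterval × unitInterval) => y.1.1.1 y.2.2 := by
    fun_prop
  exact ((PN_closed n).preimage continuous_snd).inter ((isClosed_eq e1 e2).inter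
    (isClosed_eq (hf.comp e1) (continuous_snd.comp continuous_fst)))

theorem section_null (f : ℂ → ℝ) (hf : LipschitzWith 1 f) (n : ℕ) (p : X)
    (hp : dimH (dbl p.1) < 1) : volume {x : ℝ | (p, x) ∈ KK f n} = 0 := by
  obtain ⟨D, hDc, hDd⟩ := TopologicalSpace.exists_countable_dense unitInterval
  have h1 : {x : ℝ | (p, x) ∈ KK f n} ⊆ f '' dbl p.1 ∪ ((fun u => f (p.1 u)) '' (D ∪ {0, 1})) := by
    rintro x ⟨⟨u, v⟩, hq, h2, h3⟩
    dsimp only at h2 h3
    have hn : (0 : ℝ) < 1 / ((n : ℝ) + 1) := by positivity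
    have huv : (u : ℝ) < v := by linarith [hq.1]
    have huv1 : (v : ℝ) - u < 1 := by linarith [hq.2]
    by_cases hz : p.1 u ∈ dbl p.1
    · left
      exact ⟨_, hz, h3⟩
    · right
      by_cases ha : ∃ w : unitInterval, (u < w ∧ w < v) ∧ p.1 w ≠ p.1 u
      · have hb : ¬ ∃ w : unitInterval, (w < u ∨ v < w) ∧ p.1 w ≠ p.1 u := fun hb =>
          hz ⟨u, v, huv, rfl, h2.symm, ha, hb⟩
        push Not at hb
        rcases lt_or_ge (0 : ℝ) u with hu | hu
        · refine ⟨0, Or.inr (Or.inl rfl), ?_⟩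
          have h4 := hb 0 (Or.inl hu)
          dsimp only
          rw [h4, h3]
        · refine ⟨1, Or.inr (Or.inr rfl), ?_⟩
          have h4 := hb 1 (Or.inr (by
            change (v : ℝ) < 1
            linarith))
          dsimp only
          rw [h4, h3]
      · push Not at ha
        obtain ⟨w, hwD, hw⟩ := hDd.exists_between (show u < v from huv)
        refine ⟨w, Or.inl hwD, ?_⟩
        dsimp only
        rw [ha w hw, h3]
  refine measure_mono_null h1 (measure_union_null ?_ ?_)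
  · have h2 : dimH (f '' dbl p.1) < ((1 : NNReal) : ENNReal) :=
      lt_of_le_of_lt (hf.dimH_image_le _) (by simpa using hp)
    have h3 := hausdorffMeasure_of_dimH_lt h2
    rw [NNReal.coe_one, hausdorffMeasure_real] at h3
    exact h3
  · apply Set.Countable.measure_zero
    exact (hDc.union ((Set.finite_singleton (1 : unitInterval)).insert 0).countable).image _

theorem per_eq (c : C(unitInterval, ℂ)) (u : unitInterval) (hu : (u : ℝ) < 1) : per c u = c u := by
  unfold per
  congr 1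
  exact Subtype.ext (Int.fract_eq_self.2 ⟨u.2.1, hu⟩)

theorem per_add (c : C(unitInterval, ℂ)) (t : ℝ) (m : ℤ) : per c (t + m) = per c t := by
  unfold per
  congr 1
  exact Subtype.ext (Int.fract_add_intCast t m)

theorem noDbl (f : ℂ → ℝ) (x : ℝ) (p : X) (h : ∀ n, (p, x) ∉ KK f n) : NoDbl f x (per p.1) := by
  have key : ∀ u v : ℝ, 0 ≤ u → u < v → v < 1 → per p.1 u = per p.1 v → f (per p.1 u) ≠ x := by
    intro u v hu huv hv h1 h2
    obtain ⟨u', hu'⟩ : ∃ u' : unitInterval, (u' : ℝ) = u := ⟨⟨u, hu, by linarith⟩, rfl⟩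
    obtain ⟨v', hv'⟩ : ∃ v' : unitInterval, (v' : ℝ) = v := ⟨⟨v, by linarith, hv.le⟩, rfl⟩
    subst hu' hv'
    obtain ⟨n, hn⟩ := PN_mem (u := u') (v := v') huv hv
    rw [per_eq p.1 u' (lt_trans huv hv)] at h1 h2
    rw [per_eq p.1 v' hv] at h1
    exact h n ⟨(u', v'), hn, h1, h2⟩
  intro s t hst hts h1 h2
  obtain ⟨m, hm⟩ : ∃ m : ℤ, m = ⌊s⌋ := ⟨_, rfl⟩
  have hs0 : 0 ≤ s - m := by rw [hm]; exact sub_nonneg.2 (Int.floor_le s)
  have hs1 : s - m < 1 := by
    rw [hm]
    linarith [Int.lt_floor_add_one s]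
  have es : per p.1 (s - m) = per p.1 s := by
    have := per_add p.1 (s - m) m
    rw [sub_add_cancel] at this
    exact this.symm
  have et : per p.1 (t - m) = per p.1 t := by
    have := per_add p.1 (t - m) m
    rw [sub_add_cancel] at this
    exact this.symm
  rcases lt_or_ge (t - m) 1 with h3 | h3
  · refine key (s - m) (t - m) hs0 (by linarith) h3 ?_ ?_
    · rw [es, et, h1]
    · rw [es, h2]
  · have et' : per p.1 (t - m - 1) = per p.1 t := by
      have := per_add p.1 (t - m - 1) 1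
      rw [Int.cast_one, sub_add_cancel] at this
      rw [← this, et]
    refine key (t - m - 1) (s - m) (by linarith) (by linarith) hs1 ?_ ?_
    · rw [es, et', h1]
    · rw [et', ← h1, h2]

theorem genb : S_GENB := by
  intro μ _ hdim f hf
  have h1 : ∀ n : ℕ, ∀ᵐ x : ℝ, ∀ᵐ p ∂(μ : Measure X), (p, x) ∉ KK f n := by
    intro n
    have hm : MeasurableSet {y : X × ℝ | (y.1, y.2) ∉ KK f n} :=
      (KK_closed f hf.continuous n).measurableSet.compl
    refine (Measure.ae_ae_comm (μ := (μ : Measure X)) (ν := (volume : Measure ℝ))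
      (p := fun p x => (p, x) ∉ KK f n) hm).1 ?_
    filter_upwards [hdim] with p hp
    have h2 := section_null f hf n p hp
    rw [ae_iff]
    simpa using h2
  filter_upwards [ae_all_iff.2 h1] with x hx
  filter_upwards [ae_all_iff.2 hx] with p hp
  exact noDbl f x p hp

end Pool.Agent.Y259.LG
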